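import Mathlib
import Pool.Agent.H759R2.Kad.Props6

open scoped ComplexOrder InnerProductSpace ComplexConjugate
open Finset

noncomputable section

namespace H759R2.Kad

universe u v

namespace W10

variable {A : Type u} [CStarAlgebra A]

theorem pos_smul {x : A} (hx : Pos x) {t : ℝ} (ht : 0 ≤ t) : Pos ((t : ℂ) • x) := by
  obtain ⟨y, rfl⟩ := hx
  refine ⟨((Real.sqrt t : ℝ) : ℂ) • y, ?_⟩
  rw [star_smul, smul_mul_smul_comm]
  congr 1
  rw [Complex.star_def, Complex.conj_ofReal, ← Complex.ofReal_mul, Real.mul_self_sqrt ht]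

theorem pos_add {x y : A} (hx : Pos x) (hy : Pos y) : Pos (x + y) := by
  letI := CStarAlgebra.spectralOrder A
  haveI := CStarAlgebra.spectralOrderedRing A
  obtain ⟨a, rfl⟩ := hx
  obtain ⟨b, rfl⟩ := hy
  have h1 : 0 ≤ star a * a + star b * b :=
    add_nonneg (star_mul_self_nonneg a) (star_mul_self_nonneg b)
  exact CStarAlgebra.nonneg_iff_eq_star_mul_self.1 h1

theorem pos_conj {x : A} (hx : Pos x) (c : A) : Pos (star c * x * c) := by
  obtain ⟨y, rfl⟩ := hx
  refine ⟨y * c, ?_⟩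
  rw [star_mul]
  noncomm_ring

theorem pos_zero : Pos (0 : A) := ⟨0, by simp⟩

theorem norm_le {x y : A} (hx : Pos x) (hy : Pos (y - x)) : ‖x‖ ≤ ‖y‖ := by
  letI := CStarAlgebra.spectralOrder A
  haveI := CStarAlgebra.spectralOrderedRing A
  refine CStarAlgebra.norm_le_norm_of_nonneg_of_le
    (CStarAlgebra.nonneg_iff_eq_star_mul_self.2 hx) ?_
  exact sub_nonneg.1 (CStarAlgebra.nonneg_iff_eq_star_mul_self.2 hy)

theorem pos_norm_sub {b : A} (hb : Pos b) : Pos (((‖b‖ : ℝ) : ℂ) • (1 : A) - b) := by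
  letI := CStarAlgebra.spectralOrder A
  haveI := CStarAlgebra.spectralOrderedRing A
  have h0 : 0 ≤ b := CStarAlgebra.nonneg_iff_eq_star_mul_self.2 hb
  have h1 : b ≤ algebraMap ℝ A ‖b‖ := IsSelfAdjoint.le_algebraMap_norm_self
    (IsSelfAdjoint.of_nonneg h0)
  have h2 : algebraMap ℝ A ‖b‖ = ((‖b‖ : ℝ) : ℂ) • (1 : A) := by
    rw [Algebra.algebraMap_eq_smul_one]
    exact (Complex.coe_smul ‖b‖ (1 : A)).symm
  rw [h2] at h1
  exact CStarAlgebra.nonneg_iff_eq_star_mul_self.1 (sub_nonneg.2 h1)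

theorem prj_norm {s : A} (hs : Prj s) : ‖s‖ ≤ 1 := by
  have h1 : ‖s‖ * ‖s‖ = ‖s‖ := by
    rw [← CStarRing.norm_star_mul_self, hs.1, hs.2]
  nlinarith [norm_nonneg s, sq_nonneg (‖s‖ - 1)]

theorem prj_pos {s : A} (hs : Prj s) : Pos s := ⟨s, by rw [hs.1, hs.2]⟩

/-- the induction -/
theorem ind (hW : Wst A) (b : A) (hb : star b = b) (ε : ℝ) (hε : 0 < ε) (k : ℕ) :
    ∀ (s : A) (c : ℝ), Prj s → s * b = b * s → 0 ≤ c → Pos (b * s - (c : ℂ) • s) →
      Pos (((c + k * ε : ℝ) : ℂ) • s - b * s) →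
      ∃ (n : ℕ) (e : Fin n → A) (l : Fin n → ℝ),
        (∀ i, 0 ≤ l i ∧ Prj (e i) ∧ s * e i = e i) ∧
        Pos (∑ i, (l i : ℂ) • e i - b * s) ∧
        Pos ((ε : ℂ) • s - (∑ i, (l i : ℂ) • e i - b * s)) := by
  induction k with
  | zero =>
    intro s c hs hsb hc h1 h2
    refine ⟨1, fun _ => s, fun _ => c, fun _ => ⟨hc, hs, hs.2⟩, ?_, ?_⟩
    · simpa using h2
    · have h3 := pos_add (pos_smul (prj_pos hs) hε.le) h1
      have h4 : (ε : ℂ) • s - (∑ i : Fin 1, ((fun _ => c : Fin 1 → ℝ) i : ℂ) •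
          (fun _ => s : Fin 1 → A) i - b * s) = (ε : ℂ) • s + (b * s - (c : ℂ) • s) := by
        simp only [Finset.univ_unique, Finset.sum_singleton]
        abel
      rw [h4]
      exact h3
  | succ k ih =>
    intro s c hs hsb hc h1 h2
    obtain ⟨e, he, hse, hea, h3, h4⟩ := hW.spec s (b * s) (c + ε) hs
      (by rw [star_mul, hs.1, hb, hsb]) (by rw [← mul_assoc, hsb, mul_assoc, hs.2])
    have hes : e * s = e := by
      have := congrArg star hse
      rw [star_mul, hs.1, he.1] at this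
      exact this
    have heb : e * b = b * e := by
      have h5 : e * (b * s) = e * b := by rw [← hsb, ← mul_assoc, hes]
      have h6 : b * s * e = b * e := by rw [mul_assoc, hse]
      rw [← h5, hea, h6]
    have hbse : b * s * e = b * e := by rw [mul_assoc, hse]
    -- the complement
    obtain ⟨f, hf⟩ : ∃ f, f = s - e := ⟨_, rfl⟩
    have hff : Prj f := by
      refine ⟨by rw [hf, star_sub, hs.1, he.1], ?_⟩
      rw [hf, sub_mul, mul_sub, mul_sub, hs.2, hse, hes, he.2]
      abel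
    have hfs : f * s = f := by rw [hf, sub_mul, hs.2, hes]
    have hsf : s * f = f := by rw [hf, mul_sub, hs.2, hse]
    have hfb : f * b = b * f := by rw [hf, sub_mul, mul_sub, hsb, heb]
    have hbsf : b * s * f = b * f := by rw [mul_assoc, hsf]
    rw [← hf, hbsf] at h4
    rw [hbse] at h3
    -- lower bound on `f`
    have h5 : Pos (b * f - (c : ℂ) • f) := by
      have h6 := pos_conj h1 f
      have h7 : star f * (b * s - (c : ℂ) • s) * f = b * f - (c : ℂ) • f := by
        rw [hff.1, mul_sub, sub_mul, mul_smul_comm, smul_mul_assoc, hfs, hff.2]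
        congr 1
        calc f * (b * s) * f = f * (b * (s * f)) := by noncomm_ring
          _ = (f * b) * f := by rw [hsf, mul_assoc]
          _ = b * f := by rw [hfb, mul_assoc, hff.2]
      rw [h7] at h6
      exact h6
    have h8 : Pos (((c + ε + k * ε : ℝ) : ℂ) • e - b * e) := by
      have h6 := pos_conj h2 e
      have h7 : star e * (((c + (k + 1 : ℕ) * ε : ℝ) : ℂ) • s - b * s) * e =
          ((c + ε + k * ε : ℝ) : ℂ) • e - b * e := by
        rw [he.1, mul_sub, sub_mul, mul_smul_comm, smul_mul_assoc, hes, he.2]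
        have h9 : e * (b * s) * e = b * e := by
          calc e * (b * s) * e = e * (b * (s * e)) := by noncomm_ring
            _ = (e * b) * e := by rw [hse, mul_assoc]
            _ = b * e := by rw [heb, mul_assoc, he.2]
        rw [h9]
        congr 3
        push_cast
        ring
      rw [h7] at h6
      exact h6
    obtain ⟨n, g, l, hgl, h9, h10⟩ := ih e (c + ε) he heb (by positivity) h3 h8
    refine ⟨n + 1, Fin.cons f g, Fin.cons (c + ε) l, ?_, ?_, ?_⟩
    · intro i
      refine Fin.cases ?_ (fun i => ?_) i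
      · simp only [Fin.cons_zero]
        exact ⟨by positivity, hff, hsf⟩
      · simp only [Fin.cons_succ]
        refine ⟨(hgl i).1, (hgl i).2.1, ?_⟩
        rw [← (hgl i).2.2, ← mul_assoc, hse]
    · have h11 := pos_add h4 h9
      have h12 : ∑ i, ((Fin.cons (c + ε) l : Fin (n + 1) → ℝ) i : ℂ) •
          (Fin.cons f g : Fin (n + 1) → A) i - b * s =
          ((c + ε : ℝ) : ℂ) • f - b * f + (∑ i, (l i : ℂ) • g i - b * e) := by
        rw [Fin.sum_univ_succ]
        simp only [Fin.cons_zero, Fin.cons_succ]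
        rw [hf, mul_sub]
        abel
      rw [h12]
      exact h11
    · have h11 := pos_add h5 h10
      have h12 : (ε : ℂ) • s - (∑ i, ((Fin.cons (c + ε) l : Fin (n + 1) → ℝ) i : ℂ) •
          (Fin.cons f g : Fin (n + 1) → A) i - b * s) =
          b * f - (c : ℂ) • f + ((ε : ℂ) • e - (∑ i, (l i : ℂ) • g i - b * e)) := by
        rw [Fin.sum_univ_succ]
        simp only [Fin.cons_zero, Fin.cons_succ]
        have h13 : s = f + e := by rw [hf]; abel
        rw [h13, mul_add, smul_add, Complex.ofReal_add, add_smul]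
        abel
      rw [h12]
      exact h11

end W10

theorem prove6_step : W_step.{u} := by
  intro A _ hW b s hb hs hsb ε hε
  have hbs : star b = b := by
    obtain ⟨y, rfl⟩ := hb
    rw [star_mul, star_star]
  have hbs' : b * s = b := by
    have := congrArg star hsb
    rw [star_mul, hs.1, hbs] at this
    exact this
  obtain ⟨N, hN⟩ := exists_nat_ge (‖b‖ / ε)
  have hN' : ‖b‖ ≤ N * ε := by
    rwa [div_le_iff₀ hε] at hN
  have h1 : Pos (((0 + N * ε : ℝ) : ℂ) • s - b * s) := by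
    have h2 := W10.pos_conj (W10.pos_norm_sub hb) s
    have h3 : star s * (((‖b‖ : ℝ) : ℂ) • (1 : A) - b) * s = ((‖b‖ : ℝ) : ℂ) • s - b * s := by
      rw [hs.1, mul_sub, sub_mul, mul_smul_comm, smul_mul_assoc, mul_one, hs.2, hsb]
    rw [h3] at h2
    have h4 := W10.pos_add h2 (W10.pos_smul (W10.prj_pos hs) (sub_nonneg.2 hN'))
    have h5 : ((‖b‖ : ℝ) : ℂ) • s - b * s + ((N * ε - ‖b‖ : ℝ) : ℂ) • s =
        ((0 + N * ε : ℝ) : ℂ) • s - b * s := by
      rw [Complex.ofReal_sub, sub_smul, zero_add]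
      abel
    rw [h5] at h4
    exact h4
  obtain ⟨n, e, l, he, h2, h3⟩ := W10.ind hW b hbs ε hε N s 0 hs (by rw [hsb, hbs'])
    le_rfl (by rw [hbs']; simpa using hb) h1
  refine ⟨n, e, l, he, ?_⟩
  rw [hbs'] at h2 h3
  rw [norm_sub_rev]
  refine (W10.norm_le h2 h3).trans ?_
  rw [norm_smul, Complex.norm_real, Real.norm_of_nonneg hε.le]
  calc ε * ‖s‖ ≤ ε * 1 := mul_le_mul_of_nonneg_left (W10.prj_norm hs) hε.le
    _ = ε := mul_one _

end H759R2.Kad
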